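import Pool.Agent.PFD.StmtsD3

/-!
Squad PFD, row RHO (helper86).
-/

set_option autoImplicit false

namespace Pool.Agent.PFD.D3.H86

open MvPolynomial

/-- RHO. -/
theorem rho : RhoStmt := by
  intro ℓ _ R F V E B R1 _ _ _ _ _ _ c φ J _ _ Z D _ _ q
  classical
  let E0 : MvPolynomial (Σ b, J b) R →+* MonoidAlgebra F V :=
    MvPolynomial.eval₂Hom ((algebraMap F (MonoidAlgebra F V)).comp c.κ) Z.x
  have hE0X : ∀ i, E0 (X i) = Z.x i := fun i => MvPolynomial.eval₂Hom_X' _ _ i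
  have hE0C : ∀ r, E0 (C r) = algebraMap F (MonoidAlgebra F V) (c.κ r) := fun r =>
    MvPolynomial.eval₂Hom_C _ _ r
  have hE0m : ∀ p, E0 p = MvPolynomial.aeval Z.x (MvPolynomial.map c.κ p) := by
    intro p
    show MvPolynomial.eval₂ _ _ p = MvPolynomial.eval₂ _ _ _
    rw [MvPolynomial.eval₂_map]
  have hf : ∀ i, E0 (q.f i) = 0 := by
    intro i
    rw [hE0m, q.fm, map_pow, MvPolynomial.aeval_X, Z.x0]
  have hspan : Ideal.span (Set.range q.f) ≤ RingHom.ker E0 := by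
    rw [Ideal.span_le]
    rintro _ ⟨i, rfl⟩
    exact hf i
  have hker : RingHom.ker (q.pm : MvPolynomial (Σ b, J b) R →+* R1) ≤ RingHom.ker E0 := by
    intro p hp
    exact hspan ((q.ker p).mp hp)
  let ρ : R1 →+* MonoidAlgebra F V :=
    RingHom.liftOfSurjective (q.pm : MvPolynomial (Σ b, J b) R →+* R1) q.sur ⟨E0, hker⟩
  have hρ : ∀ p, ρ (q.pm p) = E0 p := fun p =>
    RingHom.liftOfRightInverse_comp_apply (q.pm : MvPolynomial (Σ b, J b) R →+* R1) _ _
      ⟨E0, hker⟩ p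
  have hsc : ∀ r : R, ρ (algebraMap R R1 r) = algebraMap F (MonoidAlgebra F V) (c.κ r) := by
    intro r
    have h1 : algebraMap R R1 r = q.pm (C r) := (q.pm.commutes r).symm
    rw [h1, hρ, hE0C]
  have hsm : ∀ (r : R) x, ρ (r • x) = c.κ r • ρ x := by
    intro r x
    rw [Algebra.smul_def, map_mul, hsc, ← Algebra.smul_def]
  have hb : ∀ α, ρ (q.b α) = Z.bs α := by
    intro α
    rw [q.b_eq, hρ, Z.bs_eq]
    unfold PFC.B3.mo
    rw [map_prod]
    exact Finset.prod_congr rfl fun i _ => by rw [map_pow, hE0X]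
  have hrep : ∀ x, ρ x = ∑ α, c.κ (q.b.repr x α) • Z.bs α := by
    intro x
    conv_lhs => rw [← q.b.sum_repr x]
    rw [map_sum]
    exact Finset.sum_congr rfl fun α _ => by rw [hsm, hb]
  refine ⟨⟨ρ, hsc, ?_, ?_⟩, ?_, hb⟩
  · intro z
    choose r hr using fun α => c.surj (Z.bs.repr z α)
    refine ⟨∑ α, r α • q.b α, ?_⟩
    rw [map_sum]
    conv_rhs => rw [← Z.bs.sum_repr z]
    exact Finset.sum_congr rfl fun α _ => by rw [hsm, hb, hr]
  · intro x hx
    have h1 : ∀ α, c.κ (q.b.repr x α) = 0 := by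
      have h2 := hrep x
      rw [hx] at h2
      exact fun α => (Fintype.linearIndependent_iff.mp Z.bs.linearIndependent _ h2.symm) α
    choose s hs using fun α => (c.ker (q.b.repr x α)).mp (h1 α)
    refine ⟨∑ α, s α • q.b α, ?_⟩
    conv_lhs => rw [← q.b.sum_repr x]
    rw [Finset.smul_sum]
    exact Finset.sum_congr rfl fun α _ => by rw [hs, mul_smul]
  · intro i
    show ρ (q.pm (X i)) = Z.x i
    rw [hρ, hE0X]

end Pool.Agent.PFD.D3.H86
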